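import Pool.Agent.Z48CV.Main

/-!
# The Hasse principle and weak approximation for 100% of the fibrations in cyclic covers over `ℚ`

Let `F` be a form in two groups of variables `x = (x_0, …, x_n)` and `y = (y_0, …, y_m)` with integral
coefficients, bihomogeneous of bidegree `(k l, k c)`. The equation `z ^ k = F(x, y)` defines a cyclic
cover `X` of degree `k` of `ℙⁿ × ℙᵐ`, ramified along the hypersurface `F = 0`. The fibres of `X → ℙᵐ`
are the cyclic covers `z ^ k = F(x, y)` of `ℙⁿ`, which are Fano varieties if `(k - 1) l ≤ n`: for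
instance del Pezzo surfaces of degree two (`k = l = n = 2`), cubic surfaces `z ^ 3 = F_3` (`k = 3`, `l = 1`,
`n = 2`), quartic and sextic double solids (`k = 2`, `n = 3`, `l = 2, 3`). So if `X` is smooth it is
rationally connected (Graber-Harris-Starr); as `c` is arbitrary it is not a Fano variety in general.

We prove that for `n ≥ 2`, `(k - 1) l ≤ n` and arbitrary `m, c ≥ 1`, as the bound `H` for the
coefficients tends to infinity:

* a positive proportion of all the `F` defines a smooth `X` with points over the real numbers and over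
  all the `p`-adic fields;
* 100% of these `X` satisfy weak approximation to precision `1 / M(H)` at the real place and at all
  the primes up to `M(H)`, where `M(H) → ∞`. In particular 100% of them have a rational point.

Idea of the proof. A local point of `X` is moved to one with `z ≠ 0`, by a small change (if `z = 0` then
the hypersurface `F = 0` is smooth there and the point can be moved along `X`); the size of the change
and of the derivative `k z ^ (k - 1)` is bounded below if a certain polynomial `D(F)` in the coefficients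
is not small and not divisible by high powers of the small primes (compactness). Then the fibres over
all points near that of `y` have nonsingular local points near `(x, z)`. So for all the `F` in a cell
(a residue class modulo a fixed number and a small cube) one can use the same `y ∈ ℙᵐ(ℚ)`. In the cell
we change the coefficients of `F` by multiples of a fixed vector such that the fibre over `y` changes
by an arbitrary form `g` of degree `k l`. The theorem on the classes of covers `z ^ k = g(x)`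
(`class_cov`, `class_cov3` in `Pool/Agent/H90Q`) gives points with local conditions for almost all `g`.
Averaging over the cells gives the theorem.
-/

set_option autoImplicit false

namespace Pool.Agent.Results.MP_d4938b_nt.RandomCoverFibrations

open MvPolynomial (aeval)

/-- The forms in `x` (the first `n + 1` variables) and `y` (the last `m + 1` ones) which are
bihomogeneous of bidegree `(d, B)` (all monomials have degree `d` in `x` and degree `B` in `y`) and
have integral coefficients of absolute value at most `H`. -/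
def Forms (d B n m H : ℕ) : Set (MvPolynomial (Fin (n + 1) ⊕ Fin (m + 1)) ℤ) :=
  {F | (∀ e, F.coeff e ≠ 0 → ∑ i, e (Sum.inl i) = d ∧ ∑ j, e (Sum.inr j) = B) ∧
    ∀ e, |F.coeff e| ≤ (H : ℤ)}

/-- `(x, y, z)` is a point over the field `K` of the cyclic cover `z ^ k = F(x, y)` of `ℙⁿ × ℙᵐ`. -/
def IsPoint (k : ℕ) {n m : ℕ} (F : MvPolynomial (Fin (n + 1) ⊕ Fin (m + 1)) ℤ) {K : Type}
    [Field K] (x : Fin (n + 1) → K) (y : Fin (m + 1) → K) (z : K) : Prop :=
  x ≠ 0 ∧ y ≠ 0 ∧ aeval (Sum.elim x y) F = z ^ k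

/-- The cover `z ^ k = F(x, y)` is smooth: over every field of characteristic zero and at every point
one of the partial derivatives of `z ^ k - F(x, y)` is not zero. -/
def Smooth (k : ℕ) {n m : ℕ} (F : MvPolynomial (Fin (n + 1) ⊕ Fin (m + 1)) ℤ) : Prop :=
  ∀ (K : Type) [Field K] [CharZero K] (x : Fin (n + 1) → K) (y : Fin (m + 1) → K) (z : K),
    IsPoint k F x y z →
    (∃ v, aeval (Sum.elim x y) (MvPolynomial.pderiv v F) ≠ 0) ∨ (k : K) * z ^ (k - 1) ≠ 0

/-- The cover `z ^ k = F(x, y)` has points over the real numbers and over all the `p`-adic fields. -/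
def LocallySoluble (k : ℕ) {n m : ℕ} (F : MvPolynomial (Fin (n + 1) ⊕ Fin (m + 1)) ℤ) : Prop :=
  (∃ (x : Fin (n + 1) → ℝ) (y : Fin (m + 1) → ℝ) (z : ℝ), IsPoint k F x y z) ∧
    ∀ (p : ℕ) [Fact p.Prime], ∃ (x : Fin (n + 1) → ℚ_[p]) (y : Fin (m + 1) → ℚ_[p]) (z : ℚ_[p]),
      IsPoint k F x y z

/-- Weak approximation for the cover `z ^ k = F(x, y)`, `F` of bidegree `(k l, k c)` with coefficients
of size `H`, to precision `1 / M` at the real place and at the primes up to `M`: for all `p`-adic points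
`(u p, v p, w p)` of the cover, one for each prime `p`, and all real points `(u₀, v₀, w₀)` there is a
rational point `(x, y, z)` of the cover such that for suitable representatives
`(α x, β y, α ^ l β ^ c z)` of it the coordinates of `u p - α x`, `v p - β y` and
`w p - α ^ l β ^ c z` have absolute value at most `‖u p‖ / M`, `‖v p‖ / M` and
`‖u p‖ ^ l ‖v p‖ ^ c / M` for all the primes `p ≤ M`, and similarly at the real place, where the last
bound is `H ^ (1 / k) ‖u₀‖ ^ l ‖v₀‖ ^ c / M` (`‖u‖` is the largest absolute value of a coordinate;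
`H ^ (1 / k) ‖u₀‖ ^ l ‖v₀‖ ^ c` is the natural size of `w₀`). -/
def WeakApproximation (k l c M : ℕ) (H : ℝ) {n m : ℕ}
    (F : MvPolynomial (Fin (n + 1) ⊕ Fin (m + 1)) ℤ) : Prop :=
  ∀ (u : ∀ (p : ℕ) [Fact p.Prime], Fin (n + 1) → ℚ_[p])
    (v : ∀ (p : ℕ) [Fact p.Prime], Fin (m + 1) → ℚ_[p]) (w : ∀ (p : ℕ) [Fact p.Prime], ℚ_[p])
    (u₀ : Fin (n + 1) → ℝ) (v₀ : Fin (m + 1) → ℝ) (w₀ : ℝ),
    (∀ (p : ℕ) [Fact p.Prime], IsPoint k F (u p) (v p) (w p)) → IsPoint k F u₀ v₀ w₀ →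
    ∃ (x : Fin (n + 1) → ℚ) (y : Fin (m + 1) → ℚ) (z : ℚ), IsPoint k F x y z ∧
      (∀ (p : ℕ) [Fact p.Prime], p ≤ M → ∃ α β : ℚ_[p], α ≠ 0 ∧ β ≠ 0 ∧
        (∀ i, ‖u p i - α * (x i : ℚ_[p])‖ ≤ ‖u p‖ / M) ∧
        (∀ j, ‖v p j - β * (y j : ℚ_[p])‖ ≤ ‖v p‖ / M) ∧
        ‖w p - α ^ l * β ^ c * (z : ℚ_[p])‖ ≤ ‖u p‖ ^ l * ‖v p‖ ^ c / M) ∧
      ∃ α β : ℝ, α ≠ 0 ∧ β ≠ 0 ∧ (∀ i, |u₀ i - α * (x i : ℝ)| ≤ ‖u₀‖ / M) ∧
        (∀ j, |v₀ j - β * (y j : ℝ)| ≤ ‖v₀‖ / M) ∧
        |w₀ - α ^ l * β ^ c * (z : ℝ)| ≤ H ^ (1 / (k : ℝ)) * (‖u₀‖ ^ l * ‖v₀‖ ^ c) / M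

section
open Pool.Agent.Z48BH Pool.Agent.Z48CV Pool.Agent.Y716.Q

/-- the coefficients of the form -/
noncomputable def pol {n m e B : ℕ} (c : I1 (Fin (n + 1)) (Fin (m + 1)) e B → ℤ) :
    MvPolynomial (Fin (n + 1) ⊕ Fin (m + 1)) ℤ := poly c 0

theorem pol_inj {n m e B : ℕ} : Function.Injective (pol (n := n) (m := m) (e := e) (B := B)) := by
  intro c c' h
  apply poly_inj
  funext j
  rw [Subsingleton.elim j 0]
  exact h

theorem coeff_pol_exF {n m e B : ℕ} (c : I1 (Fin (n + 1)) (Fin (m + 1)) e B → ℤ)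
    (a : Mo (Fin (n + 1)) (Fin (m + 1)) (e + 2) B) : (pol c).coeff (exF a) = c ⟨0, a⟩ :=
  coeff_poly_exF (ι := Fin (n + 1)) (κ := Fin (m + 1)) (s := 1) (d := fun _ => e + 2)
    (b := fun _ => B) c 0 a

theorem coeff_pol_ne {n m e B : ℕ} {c : I1 (Fin (n + 1)) (Fin (m + 1)) e B → ℤ}
    {e' : Fin (n + 1) ⊕ Fin (m + 1) →₀ ℕ} (h : (pol c).coeff e' ≠ 0) :
    ∃ a : Mo (Fin (n + 1)) (Fin (m + 1)) (e + 2) B, exF a = e' :=
  coeff_poly_ne (ι := Fin (n + 1)) (κ := Fin (m + 1)) (s := 1) (d := fun _ => e + 2)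
    (b := fun _ => B) (c := c) (j := 0) h

theorem pol_of {n m e B : ℕ} (F : MvPolynomial (Fin (n + 1) ⊕ Fin (m + 1)) ℤ)
    (hF : ∀ e', F.coeff e' ≠ 0 → ∑ i, e' (Sum.inl i) = e + 2 ∧ ∑ j, e' (Sum.inr j) = B) :
    pol (fun n' : I1 (Fin (n + 1)) (Fin (m + 1)) e B => F.coeff (exF n'.2)) = F := by
  ext e'
  by_cases he : ∃ a : Mo (Fin (n + 1)) (Fin (m + 1)) (e + 2) B, exF a = e'
  · obtain ⟨a, rfl⟩ := he
    rw [coeff_pol_exF]
  · have h1 : F.coeff e' = 0 := by
      by_contra hne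
      obtain ⟨h1, h2⟩ := hF e' hne
      exact he (exists_exF h1 h2)
    rw [h1]
    by_contra hne
    exact he (coeff_pol_ne hne)

theorem pol_mem {n m e B H : ℕ} {c : I1 (Fin (n + 1)) (Fin (m + 1)) e B → ℤ}
    (hc : ∀ n', |c n'| ≤ (H : ℤ)) : pol c ∈ Forms (e + 2) B n m H := by
  refine ⟨fun e' he => ?_, fun e' => ?_⟩
  · obtain ⟨a, rfl⟩ := coeff_pol_ne he
    exact ⟨sum_mons a.1, sum_mons a.2⟩
  · by_cases he : (pol c).coeff e' = 0
    · rw [he, abs_zero]
      exact Int.natCast_nonneg H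
    · obtain ⟨a, rfl⟩ := coeff_pol_ne he
      rw [coeff_pol_exF]
      exact hc _

theorem ncard_eq {n m e B : ℕ} (H : ℕ)
    (P : MvPolynomial (Fin (n + 1) ⊕ Fin (m + 1)) ℤ → Prop)
    (P' : (I1 (Fin (n + 1)) (Fin (m + 1)) e B → ℤ) → Prop) (h : ∀ c, P (pol c) ↔ P' c)
    {_ : DecidablePred P'} :
    ({F | F ∈ Forms (e + 2) B n m H ∧ P F} : Set _).ncard =
      ((Box (I1 (Fin (n + 1)) (Fin (m + 1)) e B) H).filter P').card := by
  rw [← Set.ncard_coe_finset, ← Set.ncard_image_of_injective _ pol_inj]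
  congr 1
  ext F
  simp only [Set.mem_ofPred_eq, Set.mem_image, Finset.mem_coe, Finset.mem_filter]
  constructor
  · rintro ⟨hF, hP⟩
    have hpoly := pol_of F hF.1
    refine ⟨_, ⟨mem_Box.mpr fun n' => hF.2 _, ?_⟩, hpoly⟩
    rw [← h, hpoly]
    exact hP
  · rintro ⟨c, ⟨hc, hP⟩, rfl⟩
    exact ⟨pol_mem (mem_Box.mp hc), (h c).mpr hP⟩

theorem isPoint_iff {k n m e B : ℕ} {K : Type} [Field K]
    (c : I1 (Fin (n + 1)) (Fin (m + 1)) e B → ℤ) (x : Fin (n + 1) → K) (y : Fin (m + 1) → K)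
    (z : K) : IsPoint k (pol c) x y z ↔
      x ≠ 0 ∧ y ≠ 0 ∧ V (fun n => ((c n : ℤ) : K)) (Sum.elim x y) 0 = z ^ k := by
  unfold IsPoint pol
  rw [aeval_poly]

end

/-- Let `n ≥ 2`, `k ≥ 2`, `l ≥ 1`, `(k - 1) l ≤ n`, and let `m ≥ 1` and `c ≥ 1` be arbitrary. A positive
proportion of the forms `F` of bidegree `(k l, k c)` of height at most `H` defines a smooth cyclic
cover `z ^ k = F(x, y)` of `ℙⁿ × ℙᵐ` with points over all the completions of `ℚ`, and there is a function
`M` tending to infinity such that 100% of these satisfy weak approximation to precision `1 / M(H)` at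
the real place and at the primes up to `M(H)`; so 100% of them have a rational point. -/
theorem result (n m k l c : ℕ) (hn : 2 ≤ n) (hm : 1 ≤ m) (hk : 2 ≤ k) (hl : 1 ≤ l) (hc : 1 ≤ c)
    (hF : (k - 1) * l ≤ n) :
    (∃ c₀ : ℝ, 0 < c₀ ∧ ∀ᶠ H : ℕ in Filter.atTop,
      c₀ * ((Forms (k * l) (k * c) n m H).ncard : ℝ) ≤
      (({F | F ∈ Forms (k * l) (k * c) n m H ∧ Smooth k F ∧ LocallySoluble k F} :
        Set _).ncard : ℝ)) ∧
    ∃ M : ℕ → ℕ, Filter.Tendsto M Filter.atTop Filter.atTop ∧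
      Filter.Tendsto (fun H : ℕ =>
        (({F | F ∈ Forms (k * l) (k * c) n m H ∧ Smooth k F ∧ LocallySoluble k F ∧
          WeakApproximation k l c (M H) H F} : Set _).ncard : ℝ) /
        (({F | F ∈ Forms (k * l) (k * c) n m H ∧ Smooth k F ∧ LocallySoluble k F} :
          Set _).ncard : ℝ))
      Filter.atTop (nhds 1) := by
  classical
  obtain ⟨e, he⟩ : ∃ e, e + 2 = k * l := ⟨k * l - 2, by
    have : 2 ≤ k * l := by nlinarith
    omega⟩
  rw [← he]
  have hSm : ∀ c' : Pool.Agent.Z48CV.I1 (Fin (n + 1)) (Fin (m + 1)) e (k * c) → ℤ,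
      Smooth k (pol c') ↔ Pool.Agent.Z48CV.CSm k c' := by
    intro c'
    unfold Smooth Pool.Agent.Z48CV.CSm
    simp only [isPoint_iff]
    unfold pol
    simp only [Pool.Agent.Z48BH.aeval_pderiv_poly]
    constructor
    · intro h K _ _ x y z hx hy hV
      exact h K x y z ⟨hx, hy, hV⟩
    · intro h K _ _ x y z hz
      exact h K x y z hz.1 hz.2.1 hz.2.2
  have hEl : ∀ c' : Pool.Agent.Z48CV.I1 (Fin (n + 1)) (Fin (m + 1)) e (k * c) → ℤ,
      LocallySoluble k (pol c') ↔ Pool.Agent.Z48CV.CEls k c' := by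
    intro c'
    unfold LocallySoluble Pool.Agent.Z48CV.CEls
    simp only [isPoint_iff]
  have hWA : ∀ (M : ℕ) (H : ℝ)
      (c' : Pool.Agent.Z48CV.I1 (Fin (n + 1)) (Fin (m + 1)) e (k * c) → ℤ),
      WeakApproximation k l c M H (pol c') ↔ Pool.Agent.Z48CV.CWA k l c M H c' := by
    intro M H c'
    unfold WeakApproximation Pool.Agent.Z48CV.CWA
    simp only [isPoint_iff]
    constructor
    · intro h u v w u₀ v₀ w₀ hz hu hv hV
      obtain ⟨x, y, z, ⟨h1, h2, h3⟩, h4⟩ := h u v w u₀ v₀ w₀ hz ⟨hu, hv, hV⟩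
      exact ⟨x, y, z, h1, h2, h3, h4⟩
    · intro h u v w u₀ v₀ w₀ hz hu
      obtain ⟨x, y, z, h1, h2, h3, h4⟩ := h u v w u₀ v₀ w₀ hz hu.1 hu.2.1 hu.2.2
      exact ⟨x, y, z, ⟨h1, h2, h3⟩, h4⟩
  obtain ⟨⟨c₀, hc₀, h3⟩, M, hM, h4⟩ := Pool.Agent.Z48CV.main n m e k l c hn hm hk hl hc he hF
  have e1 : ∀ H : ℕ, ({F | F ∈ Forms (e + 2) (k * c) n m H ∧ Smooth k F ∧
      LocallySoluble k F} : Set _).ncard = ((Pool.Agent.Z48BH.Box (Pool.Agent.Z48CV.I1
        (Fin (n + 1)) (Fin (m + 1)) e (k * c)) H).filter (fun c' =>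
          Pool.Agent.Z48CV.CSm k c' ∧ Pool.Agent.Z48CV.CEls k c')).card := by
    intro H
    apply ncard_eq
    intro c'
    rw [hSm, hEl]
  have e2 : ∀ H M : ℕ, ({F | F ∈ Forms (e + 2) (k * c) n m H ∧ Smooth k F ∧
      LocallySoluble k F ∧ WeakApproximation k l c M H F} : Set _).ncard =
        ((Pool.Agent.Z48BH.Box (Pool.Agent.Z48CV.I1
        (Fin (n + 1)) (Fin (m + 1)) e (k * c)) H).filter (fun c' =>
          Pool.Agent.Z48CV.CSm k c' ∧ Pool.Agent.Z48CV.CEls k c' ∧
            Pool.Agent.Z48CV.CWA k l c M H c')).card := by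
    intro H M
    apply ncard_eq
    intro c'
    rw [hSm, hEl, hWA]
  have e3 : ∀ H : ℕ, (Forms (e + 2) (k * c) n m H).ncard = (Pool.Agent.Z48BH.Box
        (Pool.Agent.Z48CV.I1 (Fin (n + 1)) (Fin (m + 1)) e (k * c)) H).card := by
    intro H
    have h5 := @ncard_eq n m e (k * c) H (fun _ => True) (fun _ => True)
      (fun _ => Iff.rfl) (fun _ => instDecidableTrue)
    simp only [and_true, Finset.filter_true] at h5
    exact h5
  simp only [e1, e2, e3]
  refine ⟨⟨c₀, hc₀, ?_⟩, M, hM, ?_⟩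
  · filter_upwards [h3] with H hH
    convert hH
  · convert h4

end Pool.Agent.Results.MP_d4938b_nt.RandomCoverFibrations
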